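import Mathlib
import Pool.Agent.H68.L.R_seed8.W192.HK.Defs

/-!
# The Eisenstein integers as a subring of the complex numbers
-/

set_option autoImplicit false

open Complex NumberField

namespace Pool.Agent.Y696

/-- a primitive cube root of unity -/
noncomputable def om : ℂ := ⟨-1 / 2, Real.sqrt 3 / 2⟩

lemma om_sq : om ^ 2 + om + 1 = 0 := by
  have h3 : Real.sqrt 3 * Real.sqrt 3 = 3 := Real.mul_self_sqrt (by norm_num)
  apply Complex.ext
  · simp only [om, pow_two, Complex.add_re, Complex.mul_re, Complex.one_re, Complex.zero_re]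
    nlinarith
  · simp only [om, pow_two, Complex.add_im, Complex.mul_im, Complex.one_im, Complex.zero_im]
    ring

lemma om_mul : om * om = -1 - om := by linear_combination om_sq

lemma om_cube : om ^ 3 = 1 := by linear_combination (om - 1) * om_sq

lemma om_im : 0 < om.im := by
  simp only [om]
  positivity

lemma om_ne : om ≠ 0 := by
  intro h
  have := om_im
  rw [h] at this
  simp at this

lemma conj_om : (starRingEnd ℂ) om = om ^ 2 := by
  have h3 : Real.sqrt 3 * Real.sqrt 3 = 3 := Real.mul_self_sqrt (by norm_num)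
  apply Complex.ext
  · simp only [om, pow_two, Complex.mul_re, Complex.conj_re]
    nlinarith
  · simp only [om, pow_two, Complex.mul_im, Complex.conj_im]
    ring

/-- the Eisenstein integers -/
noncomputable def eis : Subring ℂ where
  carrier := {z | ∃ x y : ℤ, z = x + y * om}
  zero_mem' := ⟨0, 0, by simp⟩
  one_mem' := ⟨1, 0, by simp⟩
  add_mem' := by
    rintro _ _ ⟨a, b, rfl⟩ ⟨c, d, rfl⟩
    exact ⟨a + c, b + d, by push_cast; ring⟩
  neg_mem' := by
    rintro _ ⟨a, b, rfl⟩
    exact ⟨-a, -b, by push_cast; ring⟩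
  mul_mem' := by
    rintro _ _ ⟨a, b, rfl⟩ ⟨c, d, rfl⟩
    exact ⟨a * c - b * d, a * d + b * c - b * d, by
      push_cast
      linear_combination (b * d : ℂ) * om_sq⟩

lemma mem_eis (z : ℂ) : z ∈ eis ↔ ∃ x y : ℤ, z = x + y * om := Iff.rfl

lemma om_mem : om ∈ eis := ⟨0, 1, by simp⟩

/-- the cube root of unity as an element of the ring -/
noncomputable def omr : eis := ⟨om, om_mem⟩

lemma omr_coe : (omr : ℂ) = om := rfl

lemma omr_sq : omr ^ 2 + omr + 1 = 0 := Subtype.ext (by push_cast; exact om_sq)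

lemma omr_cube : omr ^ 3 = 1 := by linear_combination (omr - 1) * omr_sq

lemma eis_rep (z : eis) : ∃ x y : ℤ, z = (x : eis) + y * omr := by
  obtain ⟨x, y, h⟩ := z.2
  exact ⟨x, y, Subtype.ext (by push_cast; exact h)⟩

lemma conj_mem {z : ℂ} (hz : z ∈ eis) : (starRingEnd ℂ) z ∈ eis := by
  obtain ⟨x, y, rfl⟩ := hz
  refine ⟨x - y, -y, ?_⟩
  rw [map_add, map_mul, conj_om]
  simp only [map_intCast]
  push_cast
  linear_combination (y : ℂ) * om_sq

lemma norm_rep (x y : ℤ) : Complex.normSq ((x : ℂ) + y * om) = ((x ^ 2 - x * y + y ^ 2 : ℤ) : ℝ) := by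
  have h3 : Real.sqrt 3 * Real.sqrt 3 = 3 := Real.mul_self_sqrt (by norm_num)
  rw [Complex.normSq_apply]
  simp only [om, Complex.add_re, Complex.add_im, Complex.mul_re, Complex.mul_im,
    Complex.intCast_re, Complex.intCast_im]
  push_cast
  nlinarith

section field

variable {F : Type} [Field F] [NumberField F] [IsCyclotomicExtension {3} ℚ F] {ζ : F}

/-- every algebraic integer of the third cyclotomic field is `x + y ζ` -/
lemma int_rep (hζ : IsPrimitiveRoot ζ 3) (z : 𝓞 F) :
    ∃ x y : ℤ, z = (x : 𝓞 F) + y * hζ.toInteger := by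
  have : Fact (Nat.Prime 3) := ⟨Nat.prime_three⟩
  have h1 : z ∈ Algebra.adjoin ℤ {hζ.toInteger} := by
    have := hζ.integralPowerBasis.adjoin_gen_eq_top
    rw [hζ.integralPowerBasis_gen] at this
    rw [this]
    exact Algebra.mem_top
  have h2 : hζ.toInteger ^ 2 + hζ.toInteger + 1 = 0 := by
    have h3 : hζ.toInteger ^ 3 = 1 := hζ.toInteger_isPrimitiveRoot.pow_eq_one
    have h4 : hζ.toInteger ≠ 1 := hζ.toInteger_isPrimitiveRoot.ne_one (by norm_num)
    have h5 : (hζ.toInteger - 1) * (hζ.toInteger ^ 2 + hζ.toInteger + 1) = 0 := by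
      linear_combination h3
    exact (mul_eq_zero.1 h5).resolve_left (sub_ne_zero.2 h4)
  refine Algebra.adjoin_induction (p := fun z _ => ∃ x y : ℤ, z = (x : 𝓞 F) + y * hζ.toInteger)
    ?_ ?_ ?_ ?_ h1
  · rintro _ rfl
    exact ⟨0, 1, by simp⟩
  · intro r
    exact ⟨r, 0, by simp⟩
  · rintro _ _ _ _ ⟨a, b, rfl⟩ ⟨c, d, rfl⟩
    exact ⟨a + c, b + d, by push_cast; ring⟩
  · rintro _ _ _ _ ⟨a, b, rfl⟩ ⟨c, d, rfl⟩
    exact ⟨a * c - b * d, a * d + b * c - b * d, by
      push_cast
      linear_combination (b * d : 𝓞 F) * h2⟩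

omit [IsCyclotomicExtension {3} ℚ F] in
lemma exists_emb (hζ : IsPrimitiveRoot ζ 3) : ∃ σ : F →+* ℂ, σ ζ = om := by
  have h1 : Polynomial.aeval ζ (Polynomial.cyclotomic 3 ℚ) = 0 := by
    have := (Polynomial.isRoot_cyclotomic_iff (R := F) (n := 3)).2 hζ
    rw [Polynomial.IsRoot.def] at this
    rw [← Polynomial.map_cyclotomic 3 (algebraMap ℚ F), Polynomial.eval_map_algebraMap] at this
    exact this
  have h2 : minpoly ℚ ζ = Polynomial.cyclotomic 3 ℚ :=
    (hζ.minpoly_eq_cyclotomic_of_irreducible (Polynomial.cyclotomic.irreducible_rat (by norm_num))).symm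
  have h3 : om ∈ (minpoly ℚ ζ).aroots ℂ := by
    rw [h2, Polynomial.mem_aroots]
    refine ⟨Polynomial.cyclotomic_ne_zero 3 ℚ, ?_⟩
    rw [Polynomial.cyclotomic_three]
    simp only [map_add, map_pow, Polynomial.aeval_X, map_one]
    exact om_sq
  obtain ⟨σ, hσ⟩ := (IntermediateField.exists_algHom_of_splits_of_aeval
    (F := ℚ) (E := F) (K := ℂ) (fun s => ⟨Algebra.IsIntegral.isIntegral s, IsAlgClosed.splits _⟩)
    (x := ζ) (y := om) (by
      rw [Polynomial.mem_aroots] at h3
      exact h3.2))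
  exact ⟨σ.toRingHom, hσ⟩

/-- the isomorphism of the ring of integers with the Eisenstein integers -/
noncomputable def isoE (hζ : IsPrimitiveRoot ζ 3) (σ : F →+* ℂ) (hσ : σ ζ = om) : 𝓞 F ≃+* eis :=
  RingEquiv.ofBijective
    ((σ.comp (algebraMap (𝓞 F) F)).codRestrict eis (fun z => by
      obtain ⟨x, y, h⟩ := int_rep hζ z
      refine ⟨x, y, ?_⟩
      rw [h, map_add, map_mul, map_intCast, map_intCast]
      congr 2
    ))
    ⟨by
      intro a b h
      have h1 : σ (algebraMap (𝓞 F) F a) = σ (algebraMap (𝓞 F) F b) := congrArg Subtype.val h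
      exact (FaithfulSMul.algebraMap_injective (𝓞 F) F) (σ.injective h1), by
      rintro ⟨z, x, y, h⟩
      refine ⟨(x : 𝓞 F) + y * hζ.toInteger, Subtype.ext ?_⟩
      change (σ.comp (algebraMap (𝓞 F) F)) ((x : 𝓞 F) + y * hζ.toInteger) = z
      rw [h, map_add, map_mul, map_intCast, map_intCast]
      congr 2⟩

lemma isoE_coe (hζ : IsPrimitiveRoot ζ 3) (σ : F →+* ℂ) (hσ : σ ζ = om) (z : 𝓞 F) :
    ((isoE hζ σ hσ z : eis) : ℂ) = σ (z : F) := rfl

end field

instance eis_pid : IsPrincipalIdealRing eis := by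
  have : Fact (Nat.Prime 3) := ⟨Nat.prime_three⟩
  have : NeZero ((3 : ℕ) : ℚ) := ⟨by norm_num⟩
  have : IsCyclotomicExtension {3} ℚ (CyclotomicField 3 ℚ) :=
    CyclotomicField.isCyclotomicExtension 3 ℚ
  have : NumberField (CyclotomicField 3 ℚ) := inferInstance
  obtain ⟨ζ, hζ⟩ := IsCyclotomicExtension.exists_isPrimitiveRoot ℚ (CyclotomicField 3 ℚ)
    (Set.mem_singleton 3) (by norm_num)
  obtain ⟨σ, hσ⟩ := exists_emb hζ
  have := IsCyclotomicExtension.Rat.three_pid (CyclotomicField 3 ℚ)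
  exact IsPrincipalIdealRing.of_surjective (isoE hζ σ hσ).toRingHom (isoE hζ σ hσ).surjective

instance : IsDomain eis := inferInstance

lemma qr : Pool.Agent.W192.HK.QR eis om := ⟨om_im, mem_eis, inferInstance⟩

end Pool.Agent.Y696
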